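import Pool.Agent.H58.FM.TC2
import Pool.Agent.H50.FR.PA

/-!
Row ASY (the asymptotic value of the filling radius) of the board for MP_6a7a6f_gt.
-/

open Topology Filter

namespace Pool.Agent.H43.FAS

open Pool.Agent.H59 Pool.Agent.H48.FR Pool.Agent.H58.FL Pool.Agent.H30.FA Pool.Agent.H58.FM

theorem ASY_mem (hFN2 : T_FN2) {n : ℕ} (hn : 1 ≤ n) :
    Real.pi / 6 ∈ {ε : ℝ | ∃ hε : 0 < ε, Kills (2 * n) (kc (CPn n) ε hε)} := by
  have hε : 0 < Real.pi / 6 := by positivity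
  refine ⟨hε, hFN2 n n hn hn ?_ _ hε (Pool.Agent.H50.FR.pa.1 n hn).1⟩
  intro p _ _
  exact Nat.ordProj_le p (by omega)

/-- Row ASY. -/
theorem pf_ASY (hORD : T_ORD) (hFN2 : T_FN2) : T_ASY := by
  refine tendsto_order.2 ⟨?_, ?_⟩
  · intro a ha
    obtain ⟨a', ha1, ha2⟩ := exists_between ha
    obtain ⟨C, hC, hO⟩ := hORD a' ha2
    filter_upwards [eventually_gt_atTop C] with n hn
    have hn1 : 1 ≤ n := by omega
    refine lt_of_lt_of_le ha1 ?_
    unfold FillR
    refine le_csInf ⟨_, ASY_mem hFN2 hn1⟩ ?_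
    rintro ε ⟨hε, hK⟩
    by_contra hlt
    rw [not_le] at hlt
    have h1 : KillsN 1 (2 * n) (kc (CPn n) ε hε) := by
      unfold KillsN
      rw [one_smul]
      exact hK
    have h2 := hO n hn1 ε hε hlt.le 1 h1
    rw [mul_one] at h2
    have h3 : n ∣ C := by exact_mod_cast h2
    have := Nat.le_of_dvd (by omega) h3
    omega
  · intro a ha
    filter_upwards [eventually_ge_atTop 1] with n hn
    refine lt_of_le_of_lt ?_ ha
    unfold FillR
    exact csInf_le ⟨0, fun ε hε => hε.1.le⟩ (ASY_mem hFN2 hn)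

end Pool.Agent.H43.FAS
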