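import Pool.Agent.H58.FM.TC2

/-!
Row CR1 (chains of small tuples) of the board for MP_6a7a6f_gt.
-/

open Topology Filter

namespace Pool.Agent.H43.FAS

open Pool.Agent.H59 Pool.Agent.H48.FR Pool.Agent.H58.FL Pool.Agent.H30.FA Pool.Agent.H58.FM

theorem cl_ff (hRPM : T_RPM) (hSMC : T_SMC) (n : ℕ) {δ : ℝ} (hδ : δ ≤ Real.pi / 4) :
    Cl2 (VS n δ) (ff n) := by
  intro S hS' x hx y hy z hz w hw
  have hS : ∀ x ∈ S, ∀ y ∈ S, dist x y < Real.pi / 4 := fun x hx y hy =>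
    lt_of_lt_of_le (hS' x hx y hy) hδ
  have h5 := (hRPM n).2.2.2.2
  have h1 := (hRPM n).1
  have h := hSMC _ (rp x) (rp y) (rp z) (rp w) (h1 x) (h1 y) (h1 z) (h1 w)
    (h5 x y (hS x hx y hy)) (h5 x z (hS x hx z hz)) (h5 x w (hS x hx w hw))
    (h5 y z (hS y hy z hz)) (h5 y w (hS y hy w hw)) (h5 z w (hS z hz w hw))
  unfold mn at h
  unfold d2 ff
  rw [← h]
  ring

theorem CR1_gen (hKIL : T_KIL) (hSML : T_SML) (hVTX : T_VTX)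
    (n : ℕ) (ε : ℝ) (hε : 0 < ε) (N : ℤ) (δ : ℝ) (hδ : 0 < δ) (d : ℕ)
    (hK : KillsN N (d + 1) (kc (CPn n) ε hε))
    (C : Ch ℤ (d + 2) (CPn n)) (hC : bd ℤ (d + 1) (CPn n) C = 0) :
    ∃ (k : ℕ) (b : LL (d + 3) (UE (CPn n) ε)),
      On {S | ∀ u ∈ S, ∀ v ∈ S, dist u.1 v.1 < δ} b ∧
      bdL (d + 2) (UE (CPn n) ε) b =
        N • mapL (d + 2) (kf (CPn n) ε hε) (vx (d + 2) (SdI (d + 2) k C)) := by
  classical
  obtain ⟨B, hB⟩ := hKIL (CPn n) (UE (CPn n) ε) (kc (CPn n) ε hε) d N hK C hC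
  let j : C(UE (CPn n) ε, lp (fun _ : CPn n => ℝ) ⊤) := ⟨fun u => u.1, continuous_subtype_val⟩
  obtain ⟨k, hk⟩ := hSML (UE (CPn n) ε) _ j (d + 3) B δ hδ
  refine ⟨k, vx (d + 3) (SdI (d + 3) k B), ?_, ?_⟩
  · intro t ht
    have h2 : t ∈ Finset.image (fun σ : Smp (d + 3) (UE (CPn n) ε) => ⇑σ ∘ vtx (d + 3))
        (SdI (d + 3) k B).support := by
      apply Finsupp.mapDomain_support
      exact ht
    rw [Finset.mem_image] at h2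
    obtain ⟨σ, hσ, rfl⟩ := h2
    rintro _ ⟨i, rfl⟩ _ ⟨i', rfl⟩
    exact hk k le_rfl σ hσ i i'
  · rw [(hVTX (UE (CPn n) ε) (UE (CPn n) ε) (d + 2)).1, bd_SdI, hB, map_smul, map_smul,
      ← pf_SdI, (hVTX (CPn n) (UE (CPn n) ε) (d + 2)).2.1]
    rfl

/-- Row CR1. -/
theorem pf_CR1 (hFU2 : T_FU2) (hKIL : T_KIL) (hSML : T_SML) (hSUP : T_SUP) (hVTX : T_VTX)
    (hINV : T_INV) (hSMC : T_SMC) (hRPM : T_RPM) : T_CR1 := by
  intro n ε hε N δ hn hδ hK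
  obtain ⟨n', rfl⟩ : ∃ n', n = n' + 1 := ⟨n - 1, by omega⟩
  have hδ' : 0 < min δ (Real.pi / 4) := lt_min hδ (by positivity)
  obtain ⟨_, _, C, _, _, _, hC, hsupp, hval⟩ := hFU2 (n' + 1) (min δ (Real.pi / 4)) hn hδ'
  obtain ⟨k, b, hb, hbd⟩ := CR1_gen hKIL hSML hVTX (n' + 1) ε hε N δ hδ (2 * n' + 1) hK C hC
  have hdown : ∀ s : ℝ, Down (VS (n' + 1) s) := fun s S hS T hT x hx y hy =>
    hS x (hT hx) y (hT hy)
  refine ⟨b, vx (2 * (n' + 1) + 1) (SdI (2 * (n' + 1) + 1) k C), hb, ?_, ?_, hbd, ?_⟩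
  · have h1 := (hSUP (CPn (n' + 1)) _ (hdown (min δ (Real.pi / 4))) (2 * (n' + 1) + 1) k C
      hsupp).1
    have h2 := (hVTX (CPn (n' + 1)) (CPn (n' + 1)) (2 * (n' + 1) + 1)).2.2 _
      (hdown (min δ (Real.pi / 4))) _ h1
    intro t ht x hx y hy
    exact lt_of_lt_of_le (h2 t ht x hx y hy) (min_le_left _ _)
  · rw [(hVTX (CPn (n' + 1)) (CPn (n' + 1)) (2 * (n' + 1))).1, bd_SdI, hC, map_zero, map_zero]
  · have h := hINV (CPn (n' + 1)) _ (hdown (min δ (Real.pi / 4))) (n' + 1)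
      (List.replicate (n' + 1) (ff (n' + 1))) (List.length_replicate ..) (fun g hg => by
        rw [List.eq_of_mem_replicate hg]
        exact cl_ff hRPM hSMC (n' + 1) (min_le_right _ _)) C hC hsupp k
    rw [h]
    exact hval

end Pool.Agent.H43.FAS
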